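import Pool.Agent.R544.ES.Core

/-!
# A realisation from an assignment
-/

set_option autoImplicit false

namespace Pool.Agent.R544.ES

open Pool.Agent.R544.CD (Dat Good)

variable {D : Dat} {τ : ℕ → Bool}

/-- The side of an item. -/
def sg (D : Dat) (τ : ℕ → Bool) (i : ℕ) : Bool :=
  if i < D.n then τ i else if (i - D.n) % 6 < 2 then !τ (D.X ((i - D.n) / 6))
  else if (i - D.n) % 6 = 2 then τ (D.Y ((i - D.n) / 6))
  else if (i - D.n) % 6 = 3 then τ (D.Z ((i - D.n) / 6))
  else if (i - D.n) % 6 = 4 then !τ (D.Y ((i - D.n) / 6)) else !τ (D.Z ((i - D.n) / 6))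

/-- The end of the base edge. -/
def en (b : Bool) : ℕ := if b = true then 0 else 1

theorem en_le (b : Bool) : en b ≤ 1 := by cases b <;> simp [en]

theorem en_inj {a b : Bool} (h : en a = en b) : a = b := by
  cases a <;> cases b <;> simp_all [en]

/-- The ends of the extra edge of a clause. -/
def ww (D : Dat) (τ : ℕ → Bool) (j : ℕ) : ℕ × ℕ :=
  if τ (D.Y j) = τ (D.Z j) then (en (τ (D.Y j)), 2 + nI D + j)
  else if τ (D.Y j) = τ (D.X j) then (en (!τ (D.X j)), 2 + (D.n + 6 * j + 2))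
  else (en (!τ (D.X j)), 2 + (D.n + 6 * j + 3))

/-- The ends of the edges. -/
def ep (D : Dat) (τ : ℕ → Bool) (e : ℕ) : ℕ × ℕ :=
  if e = 0 then (0, 1) else if e < 1 + nI D then (en (sg D τ (e - 1)), 2 + (e - 1))
  else if e < 1 + nI D + D.m then ww D τ (e - 1 - nI D)
  else if (e - 1 - nI D - D.m) % 2 = 0 then
    (2 + (D.n + (e - 1 - nI D - D.m) / 2), 2 + nI D + D.m + (e - 1 - nI D - D.m) / 2)
  else (2 + pt D ((e - 1 - nI D - D.m) / 2), 2 + nI D + D.m + (e - 1 - nI D - D.m) / 2)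

theorem ep_zero : ep D τ 0 = (0, 1) := rfl

theorem ep_item {i : ℕ} (hi : i < nI D) : ep D τ (1 + i) = (en (sg D τ i), 2 + i) := by
  unfold ep
  rw [if_neg (by omega), if_pos (by omega), Nat.add_sub_cancel_left]

theorem ep_w {j : ℕ} (hj : j < D.m) : ep D τ (1 + nI D + j) = ww D τ j := by
  unfold ep
  rw [if_neg (by omega), if_neg (by omega), if_pos (by omega),
    show 1 + nI D + j - 1 - nI D = j by omega]

theorem ep_f (d : ℕ) : ep D τ (1 + nI D + D.m + 2 * d) =
    (2 + (D.n + d), 2 + nI D + D.m + d) := by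
  unfold ep
  rw [if_neg (by omega), if_neg (by omega), if_neg (by omega), if_pos (by omega),
    show (1 + nI D + D.m + 2 * d - 1 - nI D - D.m) / 2 = d by omega]

theorem ep_f' (d : ℕ) : ep D τ (1 + nI D + D.m + 2 * d + 1) =
    (2 + pt D d, 2 + nI D + D.m + d) := by
  unfold ep
  rw [if_neg (by omega), if_neg (by omega), if_neg (by omega), if_neg (by omega),
    show (1 + nI D + D.m + 2 * d + 1 - 1 - nI D - D.m) / 2 = d by omega]

theorem sg_c {j c : ℕ} (hc : c < 6) : sg D τ (D.n + 6 * j + c) =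
    if c < 2 then !τ (D.X j) else if c = 2 then τ (D.Y j) else if c = 3 then τ (D.Z j)
    else if c = 4 then !τ (D.Y j) else !τ (D.Z j) := by
  unfold sg
  rw [if_neg (by omega), show (D.n + 6 * j + c - D.n) % 6 = c by omega,
    show (D.n + 6 * j + c - D.n) / 6 = j by omega]

theorem sg_var {v : ℕ} (hv : v < D.n) : sg D τ v = τ v := if_pos hv

theorem sg_pt (hD : Good D) {d : ℕ} (hd : d < 6 * D.m) : sg D τ (pt D d) = !sg D τ (D.n + d) := by
  obtain ⟨j, c, hc, rfl⟩ : ∃ j c, c < 6 ∧ d = 6 * j + c := ⟨d / 6, d % 6, by omega, by omega⟩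
  have h1 := hD.hX j (by omega)
  have h2 := hD.hY j (by omega)
  have h3 := hD.hZ j (by omega)
  rw [← Nat.add_assoc, sg_c hc]
  unfold pt
  rw [show (6 * j + c) % 6 = c by omega, show (6 * j + c) / 6 = j by omega]
  interval_cases c
  · simp [sg_var h1]
  · simp [sg_var h1]
  · have e : D.n + (6 * j + 2) + 2 = D.n + 6 * j + 4 := by ring
    rw [if_neg (by omega), if_pos (by omega), e, sg_c (by omega)]
    simp
  · have e : D.n + (6 * j + 3) + 2 = D.n + 6 * j + 5 := by ring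
    rw [if_neg (by omega), if_pos (by omega), e, sg_c (by omega)]
    simp
  · simp [sg_var h2]
  · simp [sg_var h3]

theorem ww_spec (j : ℕ) (hτ : ¬ (τ (D.X j) = τ (D.Y j) ∧ τ (D.Y j) = τ (D.Z j))) :
    (ww D τ j).1 ≤ 1 ∧ ((ww D τ j).2 = 2 + nI D + j ∧
      (∀ c < 4, en (sg D τ (D.n + 6 * j + c)) = (ww D τ j).1) ∨
    ∃ c₀, (c₀ = 2 ∨ c₀ = 3) ∧ (ww D τ j).2 = 2 + (D.n + 6 * j + c₀) ∧
      (∀ c < 4, c ≠ c₀ → en (sg D τ (D.n + 6 * j + c)) = (ww D τ j).1) ∧
      en (sg D τ (D.n + 6 * j + c₀)) ≠ (ww D τ j).1) := by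
  have h : ∀ c < 4, sg D τ (D.n + 6 * j + c) =
    if c < 2 then !τ (D.X j) else if c = 2 then τ (D.Y j) else τ (D.Z j) := by
    intro c hc
    rw [sg_c (by omega)]
    interval_cases c <;> rfl
  unfold ww
  generalize τ (D.X j) = x at *
  generalize τ (D.Y j) = y at *
  generalize τ (D.Z j) = z at *
  split_ifs with h1 h2
  · refine ⟨en_le _, Or.inl ⟨rfl, fun c hc => ?_⟩⟩
    rw [h c hc]
    subst h1
    cases x <;> cases y <;> simp_all
  · refine ⟨en_le _, Or.inr ⟨2, Or.inl rfl, rfl, fun c hc hne => ?_, ?_⟩⟩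
    · rw [h c hc]
      subst h2
      by_cases hc2 : c < 2
      · rw [if_pos hc2]
      · rw [if_neg hc2, if_neg hne]
        cases y <;> cases z <;> simp_all
    · rw [h 2 (by omega)]
      subst h2
      simp only
      intro he
      have := en_inj he
      cases y <;> simp_all
  · refine ⟨en_le _, Or.inr ⟨3, Or.inr rfl, rfl, fun c hc hne => ?_, ?_⟩⟩
    · rw [h c hc]
      by_cases hc2 : c < 2
      · rw [if_pos hc2]
      · rw [if_neg hc2, if_pos (by omega)]
        cases x <;> cases y <;> simp_all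
    · rw [h 3 (by omega)]
      simp only
      intro he
      have := en_inj he
      cases x <;> cases y <;> cases z <;> simp_all

/-- The kinds of edges. -/
theorem edge_cases {e : ℕ} (he : e < 1 + nI D + D.m + 12 * D.m) :
    e = 0 ∨ (∃ i < nI D, e = 1 + i) ∨ (∃ j < D.m, e = 1 + nI D + j) ∨
    (∃ d < 6 * D.m, e = 1 + nI D + D.m + 2 * d) ∨
    ∃ d < 6 * D.m, e = 1 + nI D + D.m + 2 * d + 1 := by
  by_cases h0 : e = 0
  · exact Or.inl h0
  by_cases h1 : e < 1 + nI D
  · exact Or.inr (Or.inl ⟨e - 1, by omega, by omega⟩)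
  by_cases h2 : e < 1 + nI D + D.m
  · exact Or.inr (Or.inr (Or.inl ⟨e - 1 - nI D, by omega, by omega⟩))
  by_cases h3 : (e - (1 + nI D + D.m)) % 2 = 0
  · exact Or.inr (Or.inr (Or.inr (Or.inl ⟨(e - (1 + nI D + D.m)) / 2, by omega, by omega⟩)))
  · exact Or.inr (Or.inr (Or.inr (Or.inr ⟨(e - (1 + nI D + D.m)) / 2, by omega, by omega⟩)))

/-- The codes of the second ends. -/
theorem ep_lt (hD : Good D)
    (hτ : ∀ j < D.m, ¬ (τ (D.X j) = τ (D.Y j) ∧ τ (D.Y j) = τ (D.Z j))) {e : ℕ}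
    (he : e < 1 + nI D + D.m + 12 * D.m) : (ep D τ e).1 < (ep D τ e).2 := by
  rcases edge_cases he with rfl | ⟨i, hi, rfl⟩ | ⟨j, hj, rfl⟩ | ⟨d, hd, rfl⟩ | ⟨d, hd, rfl⟩
  · rw [ep_zero]
    omega
  · rw [ep_item hi]
    have := en_le (sg D τ i)
    simp only
    omega
  · rw [ep_w hj]
    obtain ⟨h1, ⟨h2, -⟩ | ⟨c, -, h2, -⟩⟩ := ww_spec j (hτ j hj) <;> omega
  · rw [ep_f]
    unfold nI
    simp only
    omega
  · rw [ep_f']
    have := pt_lt hD hd
    simp only
    omega

theorem ep_inj (hD : Good D)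
    (hτ : ∀ j < D.m, ¬ (τ (D.X j) = τ (D.Y j) ∧ τ (D.Y j) = τ (D.Z j))) {e e' : ℕ}
    (he : e < 1 + nI D + D.m + 12 * D.m) (he' : e' < 1 + nI D + D.m + 12 * D.m)
    (h : ep D τ e = ep D τ e') : e = e' := by
  have h1 := congrArg Prod.fst h
  have h2 := congrArg Prod.snd h
  have hnI : nI D = D.n + 6 * D.m := rfl
  have hwi : ∀ j < D.m, ∀ i < nI D, en (sg D τ i) = (ww D τ j).1 → 2 + i ≠ (ww D τ j).2 := by
    intro j hj i hi e1 e2
    obtain ⟨k1, ⟨k2, k3⟩ | ⟨c, k2, k3, k4, k5⟩⟩ := ww_spec j (hτ j hj)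
    · omega
    · have : i = D.n + 6 * j + c := by omega
      rw [this] at e1
      exact k5 e1
  have hww : ∀ j < D.m, (ww D τ j).2 = 2 + nI D + j ∨
      (ww D τ j).2 = 2 + (D.n + 6 * j + 2) ∨ (ww D τ j).2 = 2 + (D.n + 6 * j + 3) := by
    intro j hj
    obtain ⟨k1, ⟨k2, k3⟩ | ⟨c, k2 | k2, k3, k4, k5⟩⟩ := ww_spec j (hτ j hj)
    · exact Or.inl k2
    · rw [k2] at k3
      exact Or.inr (Or.inl k3)
    · rw [k2] at k3
      exact Or.inr (Or.inr k3)
  rcases edge_cases he with rfl | ⟨i, hi, rfl⟩ | ⟨j, hj, rfl⟩ | ⟨d, hd, rfl⟩ | ⟨d, hd, rfl⟩ <;>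
    rcases edge_cases he' with rfl | ⟨i', hi', rfl⟩ | ⟨j', hj', rfl⟩ | ⟨d', hd', rfl⟩ |
      ⟨d', hd', rfl⟩
  · rfl
  · rw [ep_zero, ep_item hi'] at h2
    simp only at h2
    omega
  · rw [ep_zero, ep_w hj'] at h2
    have := hww j' hj'
    simp only at h2
    omega
  · rw [ep_zero, ep_f] at h2
    simp only at h2
    omega
  · rw [ep_zero, ep_f'] at h2
    simp only at h2
    omega
  · rw [ep_zero, ep_item hi] at h2
    simp only at h2
    omega
  · rw [ep_item hi, ep_item hi'] at h2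
    simp only at h2
    omega
  · rw [ep_item hi, ep_w hj'] at h1 h2
    exact absurd h2 (hwi j' hj' i hi h1)
  · rw [ep_item hi, ep_f] at h2
    simp only at h2
    omega
  · rw [ep_item hi, ep_f'] at h2
    simp only at h2
    omega
  · rw [ep_w hj, ep_zero] at h2
    have := hww j hj
    simp only at h2
    omega
  · rw [ep_w hj, ep_item hi'] at h1 h2
    exact absurd h2.symm (hwi j hj i' hi' h1.symm)
  · rw [ep_w hj, ep_w hj'] at h2
    have := hww j hj
    have := hww j' hj'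
    omega
  · rw [ep_w hj, ep_f] at h2
    have := hww j hj
    simp only at h2
    omega
  · rw [ep_w hj, ep_f'] at h2
    have := hww j hj
    simp only at h2
    omega
  · rw [ep_zero, ep_f] at h2
    simp only at h2
    omega
  · rw [ep_f, ep_item hi'] at h2
    simp only at h2
    omega
  · rw [ep_f, ep_w hj'] at h2
    have := hww j' hj'
    simp only at h2
    omega
  · rw [ep_f, ep_f] at h2
    simp only at h2
    omega
  · rw [ep_f, ep_f'] at h1 h2
    simp only at h1 h2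
    have e1 : d = d' := by omega
    subst e1
    have := pt_lt hD hd
    omega
  · rw [ep_f', ep_zero] at h2
    simp only at h2
    omega
  · rw [ep_f', ep_item hi'] at h2
    simp only at h2
    omega
  · rw [ep_f', ep_w hj'] at h2
    have := hww j' hj'
    simp only at h2
    omega
  · rw [ep_f', ep_f] at h1 h2
    simp only at h1 h2
    have e1 : d = d' := by omega
    subst e1
    have := pt_lt hD hd
    omega
  · rw [ep_f', ep_f'] at h2
    simp only at h2
    omega

/-- The edge of an element. -/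
def ed (D : Dat) (τ : ℕ → Bool) (e : ℕ) : Sym2 ℕ := s((ep D τ e).1, (ep D τ e).2)

theorem share_fst {e f E p q : ℕ} (h1 : ep D τ e = (E, p)) (h2 : ep D τ f = (E, q)) (n1 : p ≠ q)
    (n2 : E ≠ p) (n3 : E ≠ q) : IsPath (ed D τ) [e, f] := by
  refine isPath2 (x := p) (a := E) (y := q) ?_ ?_ n2.symm n3 n1
  · unfold ed
    rw [h1]
    exact Sym2.eq_swap
  · unfold ed
    rw [h2]

theorem share_snd {e f E E' p : ℕ} (h1 : ep D τ e = (E, p)) (h2 : ep D τ f = (E', p)) (n1 : E ≠ E')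
    (n2 : E ≠ p) (n3 : E' ≠ p) : IsPath (ed D τ) [e, f] := by
  refine isPath2 (x := E) (a := p) (y := E') ?_ ?_ n2 n3.symm n1
  · unfold ed
    rw [h1]
  · unfold ed
    rw [h2]
    exact Sym2.eq_swap

/-- All sequences are paths. -/
theorem paths (hD : Good D)
    (hτ : ∀ j < D.m, ¬ (τ (D.X j) = τ (D.Y j) ∧ τ (D.Y j) = τ (D.Z j))) :
    ∀ s ∈ Sq D, IsPath (ed D τ) s := by
  intro s hs
  have hnI : nI D = D.n + 6 * D.m := rfl
  unfold Sq at hs
  simp only [List.mem_append, List.mem_map, List.mem_range] at hs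
  rcases hs with (⟨i, hi, rfl⟩ | ⟨d, hd, rfl⟩) | ⟨d, hd, rfl⟩
  · -- `0` and an item or an extra edge
    have h1 : ∃ E p, ep D τ (1 + i) = (E, p) ∧ E ≤ 1 ∧ 2 ≤ p := by
      by_cases h : i < nI D
      · exact ⟨_, _, ep_item h, en_le _, by omega⟩
      · have e1 : 1 + i = 1 + nI D + (i - nI D) := by omega
        refine ⟨(ww D τ (i - nI D)).1, (ww D τ (i - nI D)).2, ?_, ?_, ?_⟩
        · rw [e1, ep_w (by omega)]
        · exact (ww_spec _ (hτ _ (by omega))).1
        · obtain ⟨h1, ⟨h2, -⟩ | ⟨c, -, h2, -⟩⟩ := ww_spec (i - nI D) (hτ _ (by omega)) <;> omega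
    obtain ⟨E, p, h1, h2, h3⟩ := h1
    have h4 : E = 0 ∨ E = 1 := by omega
    rcases h4 with rfl | rfl
    · exact share_fst ep_zero h1 (by omega) (by omega) (by omega)
    · refine isPath2 (x := 0) (a := 1) (y := p) ?_ ?_ (by omega) (by omega) (by omega)
      · unfold ed
        rw [ep_zero]
      · unfold ed
        rw [h1]
  · -- an extra edge and an item
    obtain ⟨j, c, hc, rfl⟩ : ∃ j c, c < 4 ∧ d = 4 * j + c := ⟨d / 4, d % 4, by omega, by omega⟩
    rw [show (4 * j + c) / 4 = j by omega, show (4 * j + c) % 4 = c by omega]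
    have hj : j < D.m := by omega
    have h1 := ep_w (D := D) (τ := τ) hj
    have h2 := ep_item (D := D) (τ := τ) (i := D.n + 6 * j + c) (by omega)
    have h0 := en_le (sg D τ (D.n + 6 * j + c))
    obtain ⟨k1, ⟨k2, k3⟩ | ⟨c₀, k2, k3, k4, k5⟩⟩ := ww_spec j (hτ j hj)
    · rw [k3 c hc] at h2
      rw [show ww D τ j = ((ww D τ j).1, (ww D τ j).2) from rfl] at h1
      exact share_fst h1 h2 (by omega) (by omega) (by omega)
    · rw [show ww D τ j = ((ww D τ j).1, (ww D τ j).2) from rfl] at h1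
      by_cases hcc : c = c₀
      · subst hcc
        rw [k3] at h1
        exact share_snd h1 h2 (fun h => k5 h.symm) (by omega) (by omega)
      · rw [k4 c hc hcc] at h2
        exact share_fst h1 h2 (by omega) (by omega) (by omega)
  · -- the opposite items
    have hpt := pt_lt hD hd
    have h1 := ep_item (D := D) (τ := τ) (i := D.n + d) (by omega)
    have h2 := ep_item (D := D) (τ := τ) (i := pt D d) hpt.1
    have hne : en (sg D τ (D.n + d)) ≠ en (sg D τ (pt D d)) := by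
      intro h
      have := en_inj h
      rw [sg_pt hD hd] at this
      generalize sg D τ (D.n + d) = b at this
      revert this
      cases b <;> decide
    have l1 := en_le (sg D τ (D.n + d))
    have l2 := en_le (sg D τ (pt D d))
    refine isPath4 (x := en (sg D τ (D.n + d))) (y := 2 + (D.n + d)) (z := 2 + nI D + D.m + d)
      (t := 2 + pt D d) (u := en (sg D τ (pt D d))) ?_ ?_ ?_ ?_ ?_
    · unfold ed
      rw [h1]
    · unfold ed
      rw [ep_f]
    · unfold ed
      rw [ep_f']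
      exact Sym2.eq_swap
    · unfold ed
      rw [h2]
      exact Sym2.eq_swap
    · simp only [List.nodup_cons, List.mem_cons, List.not_mem_nil, or_false, not_or]
      refine ⟨⟨?_, ?_, ?_, hne⟩, ⟨?_, ?_, ?_⟩, ⟨?_, ?_⟩, ?_, ?_⟩ <;> first | omega | simp

end Pool.Agent.R544.ES
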