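import Pool.Agent.R544.ES.Defs
import Pool.Agent.R544.CD.Core

/-!
# The edge sequences of a monotone not-all-equal formula
-/

set_option autoImplicit false

namespace Pool.Agent.R544.ES

open Pool.Agent.R544.CD (Dat Good)

/-! ### Paths with two and with four edges -/

section
variable {V : Type} {φ : ℕ → Sym2 V}

theorem isPath2 {e f : ℕ} {x a y : V} (h1 : φ e = s(x, a)) (h2 : φ f = s(a, y)) (n1 : x ≠ a)
    (n2 : a ≠ y) (n3 : x ≠ y) : IsPath φ [e, f] := by
  refine ⟨fun i => [x, a, y].getD i x, ?_, ?_⟩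
  · intro i hi j hj h
    simp only [List.length_cons, List.length_nil] at hi hj
    interval_cases i <;> interval_cases j <;> simp_all
  · intro i hi
    simp only [List.length_cons, List.length_nil] at hi
    interval_cases i
    · exact h1
    · exact h2

theorem of_isPath2 {e f : ℕ} (h : IsPath φ [e, f]) : ∃ x a y : V, φ e = s(x, a) ∧
    φ f = s(a, y) ∧ x ≠ a ∧ a ≠ y ∧ x ≠ y := by
  obtain ⟨v, h1, h2⟩ := h
  simp only [List.length_cons, List.length_nil] at h1 h2
  refine ⟨v 0, v 1, v 2, h2 0 (by omega), h2 1 (by omega), fun h => ?_, fun h => ?_, fun h => ?_⟩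
  · have := h1 0 (by omega) 1 (by omega) h
    omega
  · have := h1 1 (by omega) 2 (by omega) h
    omega
  · have := h1 0 (by omega) 2 (by omega) h
    omega

theorem isPath4 {e f g h : ℕ} {x y z t u : V} (h1 : φ e = s(x, y)) (h2 : φ f = s(y, z))
    (h3 : φ g = s(z, t)) (h4 : φ h = s(t, u)) (hn : [x, y, z, t, u].Nodup) :
    IsPath φ [e, f, g, h] := by
  refine ⟨fun i => [x, y, z, t, u].getD i x, ?_, ?_⟩
  · intro i hi j hj h
    simp only [List.length_cons, List.length_nil] at hi hj
    simp only at h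
    rw [List.getD_eq_getElem _ _ (by simp; omega), List.getD_eq_getElem _ _ (by simp; omega)] at h
    exact (List.Nodup.getElem_inj_iff hn).1 h
  · intro i hi
    simp only [List.length_cons, List.length_nil] at hi
    interval_cases i
    · exact h1
    · exact h2
    · exact h3
    · exact h4

/-- The first and the last edge of a path with four edges are disjoint. -/
theorem of_isPath4 {e f g h : ℕ} (hp : IsPath φ [e, f, g, h]) {x : V} (hx : x ∈ φ e)
    (hx' : x ∈ φ h) : False := by
  obtain ⟨v, h1, h2⟩ := hp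
  simp only [List.length_cons, List.length_nil] at h1 h2
  have a1 : φ e = s(v 0, v 1) := h2 0 (by omega)
  have a2 : φ h = s(v 3, v 4) := h2 3 (by omega)
  rw [a1, Sym2.mem_iff] at hx
  rw [a2, Sym2.mem_iff] at hx'
  rcases hx with rfl | rfl <;> rcases hx' with hx' | hx'
  · have := h1 _ (by omega) _ (by omega) hx'
    omega
  · have := h1 _ (by omega) _ (by omega) hx'
    omega
  · have := h1 _ (by omega) _ (by omega) hx'
    omega
  · have := h1 _ (by omega) _ (by omega) hx'
    omega

end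

/-! ### The instance -/

/-- The partner of a clause item. -/
def pt (D : Dat) (d : ℕ) : ℕ :=
  if d % 6 < 2 then D.X (d / 6) else if d % 6 < 4 then D.n + d + 2
  else if d % 6 = 4 then D.Y (d / 6) else D.Z (d / 6)

/-- The number of the items. -/
def nI (D : Dat) : ℕ := D.n + 6 * D.m

/-- The sequences. -/
def Sq (D : Dat) : List (List ℕ) :=
  (List.range (nI D + D.m)).map (fun i => [0, 1 + i]) ++
  (List.range (4 * D.m)).map (fun d => [1 + nI D + d / 4, 1 + (D.n + 6 * (d / 4) + d % 4)]) ++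
  (List.range (6 * D.m)).map (fun d => [1 + (D.n + d), 1 + nI D + D.m + 2 * d,
    1 + nI D + D.m + 2 * d + 1, 1 + pt D d])

/-- The instance. -/
def inst (D : Dat) : Inst := (List.range (1 + nI D + D.m + 12 * D.m), Sq D)

theorem pt_lt {D : Dat} (hD : Good D) {d : ℕ} (hd : d < 6 * D.m) :
    pt D d < nI D ∧ pt D d ≠ D.n + d := by
  have h1 := hD.hX (d / 6) (by omega)
  have h2 := hD.hY (d / 6) (by omega)
  have h3 := hD.hZ (d / 6) (by omega)
  unfold pt nI
  split_ifs <;> omega

theorem isInst_inst {D : Dat} (hD : Good D) : IsInst (inst D) := by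
  refine ⟨List.nodup_range, ?_⟩
  intro s hs e he
  change s ∈ Sq D at hs
  change e ∈ List.range _
  rw [List.mem_range]
  unfold Sq at hs
  simp only [List.mem_append, List.mem_map, List.mem_range] at hs
  rcases hs with (⟨i, hi, rfl⟩ | ⟨d, hd, rfl⟩) | ⟨d, hd, rfl⟩
  · simp only [List.mem_cons, List.not_mem_nil, or_false] at he
    omega
  · simp only [List.mem_cons, List.not_mem_nil, or_false] at he
    unfold nI at *
    omega
  · have := pt_lt hD hd
    simp only [List.mem_cons, List.not_mem_nil, or_false] at he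
    unfold nI at *
    omega

/-! ### From a realisation to an assignment -/

/-- From a realisation to an assignment. -/
theorem assign {V : Type} {D : Dat} (hD : Good D) {φ : ℕ → Sym2 V}
    (hinj : ∀ e < 1 + nI D + D.m + 12 * D.m, ∀ f < 1 + nI D + D.m + 12 * D.m, φ e = φ f → e = f)
    (hp : ∀ s ∈ Sq D, IsPath φ s) :
    ∃ τ : ℕ → Prop, ∀ j < D.m, ¬ ((τ (D.X j) ↔ τ (D.Y j)) ∧ (τ (D.Y j) ↔ τ (D.Z j))) := by
  by_cases hm : D.m = 0
  · exact ⟨fun _ => True, fun j hj => by omega⟩
  have p1 : ∀ i < nI D + D.m, IsPath φ [0, 1 + i] := fun i hi => hp _ (by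
    unfold Sq
    simp only [List.mem_append, List.mem_map, List.mem_range]
    exact Or.inl (Or.inl ⟨i, hi, rfl⟩))
  have p2 : ∀ j < D.m, ∀ c < 4, IsPath φ [1 + nI D + j, 1 + (D.n + 6 * j + c)] := by
    intro j hj c hc
    refine hp _ ?_
    unfold Sq
    simp only [List.mem_append, List.mem_map, List.mem_range]
    refine Or.inl (Or.inr ⟨4 * j + c, by omega, ?_⟩)
    rw [show (4 * j + c) / 4 = j by omega, show (4 * j + c) % 4 = c by omega]
  have p3 : ∀ d < 6 * D.m, IsPath φ [1 + (D.n + d), 1 + nI D + D.m + 2 * d,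
      1 + nI D + D.m + 2 * d + 1, 1 + pt D d] := fun d hd => hp _ (by
    unfold Sq
    simp only [List.mem_append, List.mem_map, List.mem_range]
    exact Or.inr ⟨d, hd, rfl⟩)
  -- the two ends of the base edge
  obtain ⟨v₁, v₂, -, hb, -, hne, -⟩ := of_isPath2 (p1 0 (by omega))
  -- every item contains exactly one of them
  have hone : ∀ i < nI D + D.m, ∃ y, y ≠ v₁ ∧ y ≠ v₂ ∧
      (φ (1 + i) = s(v₁, y) ∨ φ (1 + i) = s(v₂, y)) := by
    intro i hi
    obtain ⟨x, a, y, h1, h2, n1, n2, n3⟩ := of_isPath2 (p1 i hi)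
    rw [hb] at h1
    rcases Sym2.eq_iff.1 h1 with ⟨rfl, rfl⟩ | ⟨rfl, rfl⟩
    · exact ⟨y, n3.symm, n2.symm, Or.inr h2⟩
    · exact ⟨y, n2.symm, n3.symm, Or.inl h2⟩
  have hopp : ∀ d < 6 * D.m, (v₁ ∈ φ (1 + (D.n + d)) ↔ ¬ v₁ ∈ φ (1 + pt D d)) := by
    intro d hd
    have hlt := pt_lt hD hd
    obtain ⟨y, ny1, ny2, hy⟩ := hone (D.n + d) (by unfold nI at *; omega)
    obtain ⟨z, nz1, nz2, hz⟩ := hone (pt D d) (by unfold nI at *; omega)
    have h4 := fun (x : V) => of_isPath4 (x := x) (p3 d hd)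
    constructor
    · exact fun h h' => h4 v₁ h h'
    · intro h
      rcases hy with hy | hy
      · rw [hy]
        exact Sym2.mem_mk_left _ _
      · rcases hz with hz | hz
        · exfalso
          apply h
          rw [hz]
          exact Sym2.mem_mk_left _ _
        · exfalso
          refine h4 v₂ ?_ ?_
          · rw [hy]
            exact Sym2.mem_mk_left _ _
          · rw [hz]
            exact Sym2.mem_mk_left _ _
  -- the split
  have hsplit : ∀ (a b : V), (a = v₁ ∧ b = v₂ ∨ a = v₂ ∧ b = v₁) → ∀ i₁ < nI D, ∀ i₂ < nI D,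
      i₁ ≠ i₂ → ∀ j < D.m, IsPath φ [1 + nI D + j, 1 + i₁] → IsPath φ [1 + nI D + j, 1 + i₂] →
      a ∈ φ (1 + nI D + j) → b ∈ φ (1 + i₁) → b ∈ φ (1 + i₂) → False := by
    intro a b hab i₁ hi₁ i₂ hi₂ hi j hj q1 q2 ha hb₁ hb₂
    obtain ⟨y, ny1, ny2, hy⟩ := hone (nI D + j) (by omega)
    rw [← Nat.add_assoc] at hy
    have hw : φ (1 + nI D + j) = s(a, y) := by
      rcases hab with ⟨rfl, rfl⟩ | ⟨rfl, rfl⟩
      · rcases hy with hy | hy
        · exact hy
        · rw [hy, Sym2.mem_iff] at ha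
          rcases ha with h | h
          · exact absurd h hne
          · exact absurd h.symm ny1
      · rcases hy with hy | hy
        · rw [hy, Sym2.mem_iff] at ha
          rcases ha with h | h
          · exact absurd h.symm hne
          · exact absurd h.symm ny2
        · exact hy
    have hna : a ≠ b := by
      rcases hab with ⟨rfl, rfl⟩ | ⟨rfl, rfl⟩
      · exact hne
      · exact hne.symm
    have hyb : y ≠ b := by
      rcases hab with ⟨rfl, rfl⟩ | ⟨rfl, rfl⟩
      · exact ny2
      · exact ny1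
    have key : ∀ i < nI D, IsPath φ [1 + nI D + j, 1 + i] → b ∈ φ (1 + i) → φ (1 + i) = s(b, y) := by
      intro i hi q hbi
      obtain ⟨z, nz1, nz2, hz⟩ := hone i (by omega)
      have hi' : φ (1 + i) = s(b, z) := by
        rcases hab with ⟨rfl, rfl⟩ | ⟨rfl, rfl⟩
        · rcases hz with hz | hz
          · rw [hz, Sym2.mem_iff] at hbi
            rcases hbi with h | h
            · exact absurd h.symm hne
            · exact absurd h.symm nz2
          · exact hz
        · rcases hz with hz | hz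
          · exact hz
          · rw [hz, Sym2.mem_iff] at hbi
            rcases hbi with h | h
            · exact absurd h hne
            · exact absurd h.symm nz1
      have hza : z ≠ a := by
        rcases hab with ⟨rfl, rfl⟩ | ⟨rfl, rfl⟩
        · exact nz1
        · exact nz2
      obtain ⟨x, c, t, h1, h2, m1, m2, m3⟩ := of_isPath2 q
      have hc1 : c ∈ φ (1 + nI D + j) := by
        rw [h1]
        exact Sym2.mem_mk_right _ _
      have hc2 : c ∈ φ (1 + i) := by
        rw [h2]
        exact Sym2.mem_mk_left _ _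
      rw [hw, Sym2.mem_iff] at hc1
      rw [hi', Sym2.mem_iff] at hc2
      rcases hc1 with rfl | rfl <;> rcases hc2 with hc2 | hc2
      · exact absurd hc2 hna
      · exact absurd hc2.symm hza
      · exact absurd hc2 hyb
      · rw [hi', hc2]
    have := hinj (1 + i₁) (by omega) (1 + i₂) (by omega)
      ((key i₁ hi₁ q1 hb₁).trans (key i₂ hi₂ q2 hb₂).symm)
    omega
  have hmem : ∀ i < nI D + D.m, ¬ v₁ ∈ φ (1 + i) → v₂ ∈ φ (1 + i) := by
    intro i hi h
    obtain ⟨y, -, -, hy | hy⟩ := hone i hi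
    · exfalso
      apply h
      rw [hy]
      exact Sym2.mem_mk_left _ _
    · rw [hy]
      exact Sym2.mem_mk_left _ _
  refine ⟨fun v => v₁ ∈ φ (1 + v), fun j hj => ?_⟩
  rintro ⟨h1, h2⟩
  have hlt : ∀ c < 6, D.n + 6 * j + c < nI D := fun c hc => by unfold nI; omega
  have o0 := hopp (6 * j) (by omega)
  have o1 := hopp (6 * j + 1) (by omega)
  have o2 := hopp (6 * j + 2) (by omega)
  have o3 := hopp (6 * j + 3) (by omega)
  have o4 := hopp (6 * j + 4) (by omega)
  have o5 := hopp (6 * j + 5) (by omega)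
  have e0 : pt D (6 * j) = D.X j := by
    unfold pt
    rw [if_pos (by omega), show 6 * j / 6 = j by omega]
  have e1 : pt D (6 * j + 1) = D.X j := by
    unfold pt
    rw [if_pos (by omega), show (6 * j + 1) / 6 = j by omega]
  have e2 : pt D (6 * j + 2) = D.n + (6 * j + 4) := by
    unfold pt
    rw [if_neg (by omega), if_pos (by omega)]
    omega
  have e3 : pt D (6 * j + 3) = D.n + (6 * j + 5) := by
    unfold pt
    rw [if_neg (by omega), if_pos (by omega)]
    omega
  have e4 : pt D (6 * j + 4) = D.Y j := by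
    unfold pt
    rw [if_neg (by omega), if_neg (by omega), if_pos (by omega), show (6 * j + 4) / 6 = j by omega]
  have e5 : pt D (6 * j + 5) = D.Z j := by
    unfold pt
    rw [if_neg (by omega), if_neg (by omega), if_neg (by omega),
      show (6 * j + 5) / 6 = j by omega]
  rw [e0] at o0
  rw [e1] at o1
  rw [e2, o4, e4, not_not] at o2
  rw [e3, o5, e5, not_not] at o3
  have q0 := p2 j hj 0 (by omega)
  have q1 := p2 j hj 1 (by omega)
  have q2 := p2 j hj 2 (by omega)
  have q3 := p2 j hj 3 (by omega)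
  simp only [Nat.add_zero] at q0
  have hA := hmem (D.n + 6 * j) (by have := hlt 0 (by omega); omega)
  have hB := hmem (D.n + (6 * j + 1)) (by have := hlt 1 (by omega); omega)
  have hC := hmem (D.n + (6 * j + 2)) (by have := hlt 2 (by omega); omega)
  have hE := hmem (D.n + (6 * j + 3)) (by have := hlt 3 (by omega); omega)
  have hW : v₁ ∈ φ (1 + nI D + j) ∨ v₂ ∈ φ (1 + nI D + j) := by
    by_cases h : v₁ ∈ φ (1 + nI D + j)
    · exact Or.inl h
    · right
      have := hmem (nI D + j) (by omega)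
      rw [← Nat.add_assoc] at this
      exact this h
  have l0 := hlt 0 (by omega)
  have l1 := hlt 1 (by omega)
  have l2 := hlt 2 (by omega)
  have l3 := hlt 3 (by omega)
  have S01 := fun a b hab => hsplit a b hab (D.n + 6 * j) l0 (D.n + 6 * j + 1) l1 (by omega) j hj
    q0 q1
  have S23 := fun a b hab => hsplit a b hab (D.n + 6 * j + 2) l2 (D.n + 6 * j + 3) l3 (by omega)
    j hj q2 q3
  clear hsplit hmem p1 p2 p3 hone hopp q0 q1 q2 q3 l0 l1 l2 l3 hlt hp hinj
  simp only [← Nat.add_assoc] at *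
  by_cases hx : v₁ ∈ φ (1 + D.X j)
  · -- the first two at `v₂`, the last two at `v₁`
    have n0 : ¬ v₁ ∈ φ (1 + D.n + 6 * j) := fun h => o0.1 h hx
    have n1 : ¬ v₁ ∈ φ (1 + D.n + 6 * j + 1) := fun h => o1.1 h hx
    have hy := h1.1 hx
    have hz := h2.1 hy
    rcases hW with hW | hW
    · exact S01 v₁ v₂ (Or.inl ⟨rfl, rfl⟩) hW (hA n0) (hB n1)
    · exact S23 v₂ v₁ (Or.inr ⟨rfl, rfl⟩) hW (o2.2 hy) (o3.2 hz)
  · have n0 : v₁ ∈ φ (1 + D.n + 6 * j) := o0.2 hx
    have n1 : v₁ ∈ φ (1 + D.n + 6 * j + 1) := o1.2 hx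
    have hy := fun h => hx (h1.2 h)
    have hz := fun h => hy (h2.2 h)
    rcases hW with hW | hW
    · exact S23 v₁ v₂ (Or.inl ⟨rfl, rfl⟩) hW (hC fun h => hy (o2.1 h)) (hE fun h => hz (o3.1 h))
    · exact S01 v₂ v₁ (Or.inr ⟨rfl, rfl⟩) hW n0 n1

end Pool.Agent.R544.ES
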