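import Mathlib

/-!
# Graphs in which given edge sequences are paths: the problem
-/

namespace Pool.Agent.R544.ES

/-- An instance: the list of the elements of `E` and the list of the sequences. -/
abbrev Inst : Type := List ℕ × List (List ℕ)

/-- The instance is well-formed: `E` is listed without repetition and all terms of the sequences are
in `E`. -/
def IsInst (I : Inst) : Prop := I.1.Nodup ∧ ∀ s ∈ I.2, ∀ e ∈ s, e ∈ I.1

/-- The sequence `s = (e_1, …, e_k)` is a simple path when the element `e` is the edge `φ e`: there
are different vertices `v 0, …, v k` such that `e_{i+1}` joins `v i` and `v (i + 1)`. -/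
def IsPath {V : Type} (φ : ℕ → Sym2 V) (s : List ℕ) : Prop :=
  ∃ v : ℕ → V, (∀ i ≤ s.length, ∀ j ≤ s.length, v i = v j → i = j) ∧
    ∀ (i : ℕ) (h : i < s.length), φ s[i] = s(v i, v (i + 1))

/-- The instance has a realisation: a finite simple graph `G` whose edges are exactly the elements
of `E` (distinct elements are distinct edges), such that every sequence is a simple path. -/
def Realisable (I : Inst) : Prop :=
  IsInst I ∧ ∃ (n : ℕ) (G : SimpleGraph (Fin n)) (φ : ℕ → Sym2 (Fin n)),
    Set.BijOn φ {e | e ∈ I.1} G.edgeSet ∧ ∀ s ∈ I.2, IsPath φ s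

end Pool.Agent.R544.ES
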