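import Pool.Agent.R544.ES.Red

/-!
# Graphs in which given edge sequences are paths: membership in NP
-/

set_option autoImplicit false

namespace Pool.Agent.R544.ES

open Pool.Agent.NPC Pool.Agent.R544
open Pool.Agent.R544.TF (pp_exlt pp_alllt sz_perm)
open Pool.Agent.R544.TS (sz_nat_lin)

/-- The ends of an element. -/
noncomputable def ce (I : Inst) (C : List (ℕ × ℕ)) (e : ℕ) : ℕ × ℕ := C.getD (index I.1 e) (0, 0)

/-- The same unordered pair. -/
def Same (p q : ℕ × ℕ) : Prop := (p.1 = q.1 ∧ p.2 = q.2) ∨ (p.1 = q.2 ∧ p.2 = q.1)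

/-- The test of a certificate: the ends of the edges, and the vertices of the paths. -/
def Ver (I : Inst) (w : List (ℕ × ℕ) × List (List ℕ)) : Prop :=
  IsInst I ∧ (∀ e ∈ I.1, (ce I w.1 e).1 ≠ (ce I w.1 e).2) ∧
    (∀ e ∈ I.1, ∀ f ∈ I.1, e = f ∨ ¬ Same (ce I w.1 e) (ce I w.1 f)) ∧
    ∀ j < I.2.length, (w.2.getD j []).length = (I.2.getD j []).length + 1 ∧
      (w.2.getD j []).Nodup ∧ ∀ i < (I.2.getD j []).length,
        Same (ce I w.1 ((I.2.getD j []).getD i 0))
          ((w.2.getD j []).getD i 0, (w.2.getD j []).getD (i + 1) 0)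

theorem poly_ce {α : Type} [TEnc α] {f : α → Inst} {g : α → List (ℕ × ℕ)} {h : α → ℕ}
    (hf : NPC.Poly f) (hg : NPC.Poly g) (hh : NPC.Poly h) :
    NPC.Poly (fun a => ce (f a) (g a) (h a)) := by
  unfold ce
  have := NPC.Poly.index (l := fun a => (f a).1) (v := h) (by fun_prop) hh
  fun_prop

theorem pp_same {α : Type} [TEnc α] {p q : α → ℕ × ℕ} (hp : NPC.Poly p) (hq : NPC.Poly q) :
    PP (fun a => Same (p a) (q a)) := by
  unfold Same
  exact PP.or (PP.and (PP.eq (by fun_prop) (by fun_prop)) (PP.eq (by fun_prop) (by fun_prop)))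
    (PP.and (PP.eq (by fun_prop) (by fun_prop)) (PP.eq (by fun_prop) (by fun_prop)))

theorem pp_isInst : PP IsInst := by
  unfold IsInst
  refine PP.and (Pool.Agent.Y592.OP.pp_nodup (by fun_prop)) ?_
  refine PP.ball (l := fun I : Inst => I.2) (r := fun I s => ∀ e ∈ s, e ∈ I.1) (by fun_prop) ?_
  exact PP.ball (l := fun x : Inst × List ℕ => x.2) (r := fun x e => e ∈ x.1.1) (by fun_prop)
    (PP.mem (by fun_prop) (by fun_prop))

theorem pp_ver : PP (fun x : Inst × (List (ℕ × ℕ) × List (List ℕ)) => Ver x.1 x.2) := by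
  unfold Ver
  refine PP.and (pp_isInst.comp (by fun_prop)) (PP.and ?_ (PP.and ?_ ?_))
  · have h : NPC.Poly (fun x : (Inst × (List (ℕ × ℕ) × List (List ℕ))) × ℕ =>
        ce x.1.1 x.1.2.1 x.2) := poly_ce (by fun_prop) (by fun_prop) (by fun_prop)
    exact PP.ball (l := fun x : Inst × (List (ℕ × ℕ) × List (List ℕ)) => x.1.1)
      (r := fun x e => (ce x.1 x.2.1 e).1 ≠ (ce x.1 x.2.1 e).2) (by fun_prop)
      (PP.ne (by fun_prop) (by fun_prop))
  · refine PP.ball (l := fun x : Inst × (List (ℕ × ℕ) × List (List ℕ)) => x.1.1)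
      (r := fun x e => ∀ f ∈ x.1.1, e = f ∨ ¬ Same (ce x.1 x.2.1 e) (ce x.1 x.2.1 f))
      (by fun_prop) ?_
    refine PP.ball (l := fun x : (Inst × (List (ℕ × ℕ) × List (List ℕ))) × ℕ => x.1.1.1)
      (r := fun x f => x.2 = f ∨ ¬ Same (ce x.1.1 x.1.2.1 x.2) (ce x.1.1 x.1.2.1 f))
      (by fun_prop) (PP.or (PP.eq (by fun_prop) (by fun_prop)) (PP.not (pp_same ?_ ?_)))
    · exact poly_ce (by fun_prop) (by fun_prop) (by fun_prop)
    · exact poly_ce (by fun_prop) (by fun_prop) (by fun_prop)
  · refine pp_alllt (n := fun x : Inst × (List (ℕ × ℕ) × List (List ℕ)) => x.1.2.length)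
      (r := fun x j => (x.2.2.getD j []).length = (x.1.2.getD j []).length + 1 ∧
      (x.2.2.getD j []).Nodup ∧ ∀ i < (x.1.2.getD j []).length,
        Same (ce x.1 x.2.1 ((x.1.2.getD j []).getD i 0))
          ((x.2.2.getD j []).getD i 0, (x.2.2.getD j []).getD (i + 1) 0))
      (UPoly.length (by fun_prop)) (PP.and (PP.eq (by fun_prop) (by fun_prop)) (PP.and
        (Pool.Agent.Y592.OP.pp_nodup (by fun_prop)) ?_))
    refine pp_alllt (n := fun x : (Inst × (List (ℕ × ℕ) × List (List ℕ))) × ℕ =>
      (x.1.1.2.getD x.2 []).length) (r := fun x i =>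
        Same (ce x.1.1 x.1.2.1 ((x.1.1.2.getD x.2 []).getD i 0))
          ((x.1.2.2.getD x.2 []).getD i 0, (x.1.2.2.getD x.2 []).getD (i + 1) 0))
      (UPoly.length (by fun_prop)) (pp_same ?_ (by fun_prop))
    exact poly_ce (by fun_prop) (by fun_prop) (by fun_prop)

theorem same_iff {p q : ℕ × ℕ} : Same p q ↔ s(p.1, p.2) = s(q.1, q.2) := by
  unfold Same
  rw [Sym2.eq_iff]

theorem of_ver {I : Inst} {w : List (ℕ × ℕ) × List (List ℕ)} (h : Ver I w) : Realisable I := by
  obtain ⟨h1, h2, h3, h4⟩ := h
  refine realisable_iff.2 ⟨h1, fun e => s((ce I w.1 e).1, (ce I w.1 e).2), fun e he => ?_,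
    fun e he f hf hef => ?_, fun s hs => ?_⟩
  · rw [Sym2.mk_isDiag_iff]
    exact h2 e he
  · rcases h3 e he f hf with h | h
    · exact h
    · exact absurd (same_iff.2 hef) h
  · obtain ⟨j, hj, rfl⟩ := List.getElem_of_mem hs
    obtain ⟨h5, h6, h7⟩ := h4 j hj
    rw [List.getD_eq_getElem _ _ hj] at h5 h7
    generalize w.2.getD j [] = P at *
    refine ⟨fun i => P.getD i 0, fun i hi k hk hik => ?_, fun i hi => ?_⟩
    · simp only at hik
      have hi' : i < P.length := by omega
      have hk' : k < P.length := by omega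
      rw [List.getD_eq_getElem _ _ hi', List.getD_eq_getElem _ _ hk'] at hik
      exact (List.Nodup.getElem_inj_iff h6).1 hik
    · have := same_iff.1 (h7 i hi)
      rw [List.getD_eq_getElem _ _ hi] at this
      exact this

theorem index_le {V : Type} (l : List V) (v : V) : index l v ≤ l.length := by
  classical
  unfold index
  cases hh : (l.zipIdx.filter (fun p => decide (p.1 = v))).head? with
  | none => exact Nat.zero_le _
  | some p =>
    have hp : p ∈ l.zipIdx.filter (fun p => decide (p.1 = v)) := List.mem_of_head? hh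
    rw [List.mem_filter, List.mem_zipIdx_iff_getElem?] at hp
    exact (List.getElem?_eq_some_iff.1 hp.1).choose.le

theorem ver_of {I : Inst} (h : Realisable I) : ∃ w : List (ℕ × ℕ) × List (List ℕ),
    sz w ≤ ((Polynomial.X * (16 * Polynomial.X + 4) + 1) +
      (Polynomial.X * (Polynomial.X * (8 * Polynomial.X + 2) + 2) + 1) + 1 :
      Polynomial ℕ).eval (sz I) ∧ Ver I w := by
  obtain ⟨hI, φ, h1, h2, h3⟩ := realisable_iff.1 h
  have hpq : ∀ e, ∃ p q : ℕ, φ e = s(p, q) := by
    intro e
    generalize φ e = z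
    induction z using Sym2.ind with | _ a b => exact ⟨a, b, rfl⟩
  choose p q hpq using hpq
  let L : List ℕ := I.1.flatMap (fun e => [p e, q e])
  have hLp : ∀ e ∈ I.1, p e ∈ L ∧ q e ∈ L := by
    intro e he
    simp only [L, List.mem_flatMap]
    exact ⟨⟨e, he, by simp⟩, ⟨e, he, by simp⟩⟩
  have hLl : L.length = 2 * I.1.length := by
    simp only [L, List.length_flatMap, List.length_cons, List.length_nil]
    induction I.1 with
    | nil => rfl
    | cons a l ih => simp at ih ⊢; omega
  have hex : ∀ s, ∃ v : ℕ → ℕ, s ∈ I.2 → (∀ i ≤ s.length, ∀ j ≤ s.length, v i = v j → i = j) ∧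
      ∀ (i : ℕ) (h : i < s.length), φ s[i] = s(v i, v (i + 1)) := by
    intro s
    by_cases hs : s ∈ I.2
    · obtain ⟨v, hv⟩ := h3 s hs
      exact ⟨v, fun _ => hv⟩
    · exact ⟨fun _ => 0, fun h => absurd h hs⟩
  choose v hv using hex
  have hce : ∀ e ∈ I.1, ce I (I.1.map (fun e => (index L (p e), index L (q e)))) e =
      (index L (p e), index L (q e)) := by
    intro e he
    unfold ce
    rw [List.getD_eq_getElem?_getD, List.getElem?_map, getElem?_index he]
    rfl
  have hsm : ∀ a ∈ L, ∀ b ∈ L, ∀ c ∈ L, ∀ d ∈ L,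
      (Same (index L a, index L b) (index L c, index L d) ↔ s(a, b) = s(c, d)) := by
    intro a ha b hb c hc d hd
    rw [← same_iff (p := (a, b)) (q := (c, d))]
    unfold Same
    simp only
    constructor
    · rintro (⟨e1, e2⟩ | ⟨e1, e2⟩)
      · exact Or.inl ⟨index_inj ha hc e1, index_inj hb hd e2⟩
      · exact Or.inr ⟨index_inj ha hd e1, index_inj hb hc e2⟩
    · rintro (⟨rfl, rfl⟩ | ⟨rfl, rfl⟩)
      · exact Or.inl ⟨rfl, rfl⟩
      · exact Or.inr ⟨rfl, rfl⟩
  have hvL : ∀ s ∈ I.2, s ≠ [] → ∀ i ≤ s.length, v s i ∈ L := by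
    intro s hs hs0 i hi
    have key : ∀ e ∈ I.1, ∀ x ∈ φ e, x ∈ L := by
      intro e he x hx
      rw [hpq e, Sym2.mem_iff] at hx
      rcases hx with rfl | rfl
      · exact (hLp e he).1
      · exact (hLp e he).2
    by_cases hi' : i < s.length
    · have a3 := (hv s hs).2 i hi'
      refine key _ (hI.2 s hs _ (List.getElem_mem hi')) _ ?_
      rw [a3]
      exact Sym2.mem_mk_left _ _
    · have hpos := List.length_pos_of_ne_nil hs0
      have a3 := (hv s hs).2 (i - 1) (by omega)
      refine key _ (hI.2 s hs _ (List.getElem_mem (show i - 1 < s.length by omega))) _ ?_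
      rw [a3, show i - 1 + 1 = i by omega]
      exact Sym2.mem_mk_right _ _
  have hgP : ∀ j (hj : j < I.2.length), (I.2.map (fun s =>
      (List.range (s.length + 1)).map (fun i => index L (v s i)))).getD j [] =
      (List.range (I.2[j].length + 1)).map (fun i => index L (v I.2[j] i)) := by
    intro j hj
    rw [List.getD_eq_getElem _ _ (by simpa using hj), List.getElem_map]
  refine ⟨(I.1.map (fun e => (index L (p e), index L (q e))),
    I.2.map (fun s => (List.range (s.length + 1)).map (fun i => index L (v s i)))), ?_, hI, ?_, ?_,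
    ?_⟩
  · -- sizes
    have hszI : sz I = sz I.1 + sz I.2 + 1 := sz_pair I.1 I.2
    have b1 := length_lt_sz I.1
    have b2 := length_lt_sz I.2
    have b3 : ∀ s ∈ I.2, s.length + 1 ≤ sz I := by
      intro s hs
      have b4 := length_lt_sz s
      have b5 := sz_le_of_mem hs
      omega
    have b6 : I.1.length ≤ sz I := by omega
    have b7 : I.2.length ≤ sz I := by omega
    clear_value L
    generalize sz I = S at *
    have hix : ∀ x, sz (index L x) ≤ 8 * S + 1 := by
      intro x
      have c1 := sz_nat_lin (index L x)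
      have c2 := index_le L x
      omega
    have hC := sz_le_length_mul (I.1.map (fun e => (index L (p e), index L (q e)))) (16 * S + 3)
      (fun x hx => by
        rw [List.mem_map] at hx
        obtain ⟨e, -, rfl⟩ := hx
        have c1 := hix (p e)
        have c2 := hix (q e)
        rw [sz_pair]
        omega)
    rw [List.length_map] at hC
    have hP1 : ∀ s ∈ I.2, sz ((List.range (s.length + 1)).map (fun i => index L (v s i))) ≤
        S * (8 * S + 2) + 1 := by
      intro s hs
      have c1 := sz_le_length_mul ((List.range (s.length + 1)).map (fun i => index L (v s i)))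
        (8 * S + 1) (fun x hx => by
          rw [List.mem_map] at hx
          obtain ⟨i, -, rfl⟩ := hx
          exact hix _)
      rw [List.length_map, List.length_range] at c1
      exact c1.trans (Nat.add_le_add_right (Nat.mul_le_mul_right _ (b3 s hs)) 1)
    have hP := sz_le_length_mul (I.2.map (fun s =>
      (List.range (s.length + 1)).map (fun i => index L (v s i)))) (S * (8 * S + 2) + 1)
      (fun x hx => by
        rw [List.mem_map] at hx
        obtain ⟨s, hs, rfl⟩ := hx
        exact hP1 s hs)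
    rw [List.length_map] at hP
    have hC2 : I.1.length * (16 * S + 3 + 1) ≤ S * (16 * S + 4) := Nat.mul_le_mul b6 le_rfl
    have hP2 : I.2.length * (S * (8 * S + 2) + 1 + 1) ≤ S * (S * (8 * S + 2) + 2) :=
      Nat.mul_le_mul b7 le_rfl
    rw [sz_pair]
    simp only [Polynomial.eval_add, Polynomial.eval_mul, Polynomial.eval_X,
      Polynomial.eval_one, Polynomial.eval_ofNat]
    omega
  · intro e he
    rw [hce e he]
    intro hd
    have hd' := index_inj (hLp e he).1 (hLp e he).2 hd
    apply h1 e he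
    rw [hpq e, hd']
    exact Sym2.mk_isDiag_iff.2 rfl
  · intro e he f hf
    by_cases hef : e = f
    · exact Or.inl hef
    · right
      rw [hce e he, hce f hf, hsm _ (hLp e he).1 _ (hLp e he).2 _ (hLp f hf).1 _ (hLp f hf).2]
      intro hh
      exact hef (h2 e he f hf (by rw [hpq e, hpq f, hh]))
  · intro j hj
    have hs := List.getElem_mem hj
    simp only
    rw [hgP j hj, List.getD_eq_getElem _ _ hj]
    refine ⟨by simp, ?_, ?_⟩
    · rw [List.nodup_iff_injective_getElem]
      intro a b hab
      simp only [List.getElem_map, List.getElem_range] at hab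
      have ha := a.2
      have hb := b.2
      simp only [List.length_map, List.length_range] at ha hb
      by_cases hs0 : I.2[j] = []
      · have h0 := congrArg List.length hs0
        rw [List.length_nil] at h0
        exact Fin.ext (by omega)
      · exact Fin.ext ((hv _ hs).1 _ (by omega) _ (by omega) (index_inj
          (hvL _ hs hs0 _ (by omega)) (hvL _ hs hs0 _ (by omega)) hab))
    · intro i hi
      have hs0 : I.2[j] ≠ [] := by
        intro h0
        rw [h0] at hi
        exact absurd hi (Nat.not_lt_zero i)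
      have he : I.2[j][i] ∈ I.1 := hI.2 _ hs _ (List.getElem_mem hi)
      have e1 : ∀ k, k < I.2[j].length + 1 → ((List.range (I.2[j].length + 1)).map
          (fun i => index L (v I.2[j] i))).getD k 0 = index L (v I.2[j] k) := by
        intro k hk
        rw [List.getD_eq_getElem _ _ (by simpa using hk)]
        simp
      rw [e1 i (by omega), e1 (i + 1) (by omega), List.getD_eq_getElem _ _ hi, hce _ he,
        hsm _ (hLp _ he).1 _ (hLp _ he).2 _ (hvL _ hs hs0 _ (by omega)) _
        (hvL _ hs hs0 _ (by omega)), ← hpq]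
      exact (hv _ hs).2 i hi

theorem inNPP : InNPP Realisable :=
  inNPP_of_pp pp_ver _ (fun _ h => ver_of h) fun _ _ h => of_ver h

end Pool.Agent.R544.ES
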