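import Pool.Agent.R544.CD.Red
import Pool.Agent.R544.TS.Mem
import Pool.Agent.R544.ES.Back

/-!
# Graphs in which given edge sequences are paths: the reduction and membership in NP
-/

set_option autoImplicit false

namespace Pool.Agent.R544.ES

open Pool.Agent.NPC Pool.Agent.R544
open Pool.Agent.R544.TF (pp_exlt pp_alllt sz_perm)
open Pool.Agent.R544.CD (Dat Good dat good_dat uPoly_len)
open Pool.Agent.R544.TS (sz_nat_lin)

/-- A path depends only on the edges. -/
theorem isPath_map {V W : Type} {φ : ℕ → Sym2 V} {ψ : ℕ → Sym2 W} {s : List ℕ} (g : V → W)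
    (v : ℕ → V) (h1 : ∀ i ≤ s.length, ∀ j ≤ s.length, v i = v j → i = j)
    (h2 : ∀ (i : ℕ) (h : i < s.length), φ s[i] = s(v i, v (i + 1)))
    (hg : ∀ i ≤ s.length, ∀ j ≤ s.length, g (v i) = g (v j) → v i = v j)
    (hψ : ∀ e ∈ s, ψ e = Sym2.map g (φ e)) : IsPath ψ s := by
  refine ⟨fun i => g (v i), fun i hi j hj h => h1 i hi j hj (hg i hi j hj h), fun i hi => ?_⟩
  rw [hψ _ (List.getElem_mem hi), h2 i hi]
  rfl

/-- Realisations with natural numbers as vertices. -/
theorem realisable_iff {I : Inst} : Realisable I ↔ IsInst I ∧ ∃ φ : ℕ → Sym2 ℕ,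
    (∀ e ∈ I.1, ¬ (φ e).IsDiag) ∧ (∀ e ∈ I.1, ∀ f ∈ I.1, φ e = φ f → e = f) ∧
    ∀ s ∈ I.2, IsPath φ s := by
  unfold Realisable
  refine and_congr_right fun hI => ?_
  constructor
  · rintro ⟨n, G, φ, hφ, hp⟩
    refine ⟨fun e => Sym2.map Fin.val (φ e), fun e he => ?_, fun e he f hf h => ?_, fun s hs => ?_⟩
    · rw [Sym2.isDiag_map Fin.val_injective]
      exact G.not_isDiag_of_mem_edgeSet (hφ.1 he)
    · exact hφ.2.1 he hf (Sym2.map.injective Fin.val_injective h)
    · obtain ⟨v, h1, h2⟩ := hp s hs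
      exact isPath_map Fin.val v h1 h2 (fun i _ j _ h => Fin.val_injective h) fun e _ => rfl
  · rintro ⟨φ, h1, h2, h3⟩
    -- a bound for the numbers of the vertices
    obtain ⟨N, hN⟩ : ∃ N : ℕ, ∀ e ∈ I.1, ∀ x ∈ φ e, x < N := by
      refine ⟨(I.1.toFinset.image φ).sup (fun p => p.toFinset.sup id + 1), fun e he x hx => ?_⟩
      have a1 : φ e ∈ I.1.toFinset.image φ :=
        Finset.mem_image_of_mem _ (List.mem_toFinset.2 he)
      have a2 := Finset.le_sup (f := fun p : Sym2 ℕ => p.toFinset.sup id + 1) a1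
      have a3 := Finset.le_sup (f := (id : ℕ → ℕ)) (Sym2.mem_toFinset.2 hx)
      simp only [id] at a3 a2
      exact lt_of_lt_of_le (Nat.lt_succ_of_le a3) a2
    let g : ℕ → Fin (N + 1) := fun x => if h : x < N + 1 then ⟨x, h⟩ else ⟨0, by omega⟩
    have hg : ∀ x < N, ∀ y < N, g x = g y → x = y := by
      intro x hx y hy h
      simp only [g] at h
      rw [dif_pos (by omega), dif_pos (by omega)] at h
      exact congrArg Fin.val h
    have hinj : ∀ e ∈ I.1, ∀ f ∈ I.1, Sym2.map g (φ e) = Sym2.map g (φ f) → φ e = φ f := by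
      intro e he f hf h
      have b1 := hN e he
      have b2 := hN f hf
      generalize φ e = p at *
      generalize φ f = q at *
      induction p using Sym2.ind with | _ a b =>
      induction q using Sym2.ind with | _ c d =>
      have ha := b1 a (Sym2.mem_mk_left _ _)
      have hb := b1 b (Sym2.mem_mk_right _ _)
      have hc := b2 c (Sym2.mem_mk_left _ _)
      have hd := b2 d (Sym2.mem_mk_right _ _)
      rw [Sym2.map_mk, Sym2.map_mk, Sym2.eq_iff] at h
      rw [Sym2.eq_iff]
      rcases h with ⟨h, h'⟩ | ⟨h, h'⟩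
      · exact Or.inl ⟨hg _ ha _ hc h, hg _ hb _ hd h'⟩
      · exact Or.inr ⟨hg _ ha _ hd h, hg _ hb _ hc h'⟩
    have hdiag : ∀ e ∈ I.1, ¬ (Sym2.map g (φ e)).IsDiag := by
      intro e he h
      have b1 := hN e he
      have b2 := h1 e he
      generalize φ e = p at *
      induction p using Sym2.ind with | _ a b =>
      rw [Sym2.map_mk, Sym2.mk_isDiag_iff] at h
      rw [Sym2.mk_isDiag_iff] at b2
      exact b2 (hg _ (b1 a (Sym2.mem_mk_left _ _)) _ (b1 b (Sym2.mem_mk_right _ _)) h)
    refine ⟨N + 1, SimpleGraph.fromEdgeSet {p | ∃ e ∈ I.1, Sym2.map g (φ e) = p},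
      fun e => Sym2.map g (φ e), ⟨fun e he => ?_, fun e he f hf h => ?_, fun p hp => ?_⟩,
      fun s hs => ?_⟩
    · rw [SimpleGraph.edgeSet_fromEdgeSet]
      exact ⟨⟨e, he, rfl⟩, hdiag e he⟩
    · exact h2 e he f hf (hinj e he f hf h)
    · rw [SimpleGraph.edgeSet_fromEdgeSet] at hp
      obtain ⟨⟨e, he, h⟩, -⟩ := hp
      exact ⟨e, he, h⟩
    · obtain ⟨v, a1, a2⟩ := h3 s hs
      by_cases hs0 : s = []
      · subst hs0
        refine ⟨fun _ => g 0, fun i hi j hj _ => ?_, fun i hi => absurd hi (Nat.not_lt_zero i)⟩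
        simp only [List.length_nil] at hi hj
        omega
      have hv : ∀ i ≤ s.length, v i < N := by
        intro i hi
        by_cases hi' : i < s.length
        · have a3 := a2 i hi'
          refine hN _ (hI.2 s hs _ (List.getElem_mem hi')) _ ?_
          rw [a3]
          exact Sym2.mem_mk_left _ _
        · have hpos := List.length_pos_of_ne_nil hs0
          have a3 := a2 (i - 1) (by omega)
          refine hN _ (hI.2 s hs _ (List.getElem_mem (show i - 1 < s.length by omega))) _ ?_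
          rw [a3, show i - 1 + 1 = i by omega]
          exact Sym2.mem_mk_right _ _
      exact isPath_map g v a1 a2 (fun i hi j hj h => hg _ (hv i hi) _ (hv j hj) h) fun e _ => rfl

/-! ### The reduction -/

/-- The reduction. -/
def red (φ : N3) : Inst := inst (dat φ)

theorem red_correct {φ : N3} (hb : BN φ) : NAE3 φ ↔ Realisable (red φ) := by
  classical
  have hD := good_dat hb
  rw [nae3_iff, realisable_iff]
  have hmem : ∀ e, e ∈ (red φ).1 ↔
      e < 1 + nI (dat φ) + (dat φ).m + 12 * (dat φ).m := fun e => List.mem_range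
  constructor
  · rintro ⟨τ, h⟩
    refine ⟨isInst_inst hD, ed (dat φ) τ, fun e he => ?_, fun e he f hf hef => ?_, paths hD h⟩
    · have := ep_lt hD h ((hmem e).1 he)
      unfold ed
      rw [Sym2.mk_isDiag_iff]
      omega
    · have h1 := ep_lt hD h ((hmem e).1 he)
      have h2 := ep_lt hD h ((hmem f).1 hf)
      refine ep_inj hD h ((hmem e).1 he) ((hmem f).1 hf) ?_
      unfold ed at hef
      rw [Sym2.eq_iff] at hef
      rcases hef with ⟨h3, h4⟩ | ⟨h3, h4⟩
      · exact Prod.ext h3 h4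
      · omega
  · rintro ⟨-, φ', -, h2, h3⟩
    obtain ⟨τ, hτ⟩ := assign hD (fun e he f hf => h2 e ((hmem e).2 he) f ((hmem f).2 hf)) h3
    refine ⟨fun v => decide (τ v), fun j hj => ?_⟩
    rw [decide_eq_decide, decide_eq_decide]
    exact hτ j hj

theorem poly_nI {α : Type} [TEnc α] {f : α → N3} (hf : NPC.Poly f) :
    NPC.Poly (fun a => nI (dat (f a))) := by
  unfold nI dat
  fun_prop

theorem uPoly_nI {α : Type} [TEnc α] {f : α → N3} (hf : NPC.Poly f) :
    UPoly (fun a => nI (dat (f a))) := by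
  unfold nI dat
  exact UPoly.add (UPoly.mul (UPoly.const 3) (uPoly_len hf)) (UPoly.mul (UPoly.const 6)
    (uPoly_len hf))

theorem poly_pt {α : Type} [TEnc α] {f : α → N3} {g : α → ℕ} (hf : NPC.Poly f)
    (hg : NPC.Poly g) : NPC.Poly (fun a => pt (dat (f a)) (g a)) := by
  unfold pt dat
  simp only
  refine PP.ite (PP.lt (by fun_prop) (by fun_prop)) (by fun_prop) (PP.ite
    (PP.lt (by fun_prop) (by fun_prop)) (by fun_prop) (PP.ite
    (PP.eq (by fun_prop) (by fun_prop)) (by fun_prop) (by fun_prop)))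

attribute [fun_prop] poly_nI poly_pt

theorem poly_red : NPC.Poly red := by
  unfold red inst Sq
  have hl : UPoly (fun φ : N3 => (dat φ).m) := uPoly_len NPC.Poly.id
  have hn : UPoly (fun φ : N3 => nI (dat φ)) := uPoly_nI NPC.Poly.id
  have hm : ∀ {β : Type} [TEnc β] {f : β → N3}, NPC.Poly f → NPC.Poly (fun b => (dat (f b)).m) := by
    intro β _ f hf
    unfold dat
    fun_prop
  have hn' : ∀ {β : Type} [TEnc β] {f : β → N3}, NPC.Poly f →
      NPC.Poly (fun b => (dat (f b)).n) := by
    intro β _ f hf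
    unfold dat
    fun_prop
  refine NPC.Poly.pair ?_ (NPC.Poly.append (NPC.Poly.append ?_ ?_) ?_)
  · exact (UPoly.add (UPoly.add (UPoly.add (UPoly.const 1) hn) hl)
      (UPoly.mul (UPoly.const 12) hl)).range
  · exact NPC.Poly.map (l := fun φ : N3 => List.range (nI (dat φ) + (dat φ).m))
      (F := fun _ i => [0, 1 + i]) (UPoly.add hn hl).range (by fun_prop)
  · have h1 := hn' (f := fun x : N3 × ℕ => x.1) (by fun_prop)
    exact NPC.Poly.map (l := fun φ : N3 => List.range (4 * (dat φ).m))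
      (F := fun φ d => [1 + nI (dat φ) + d / 4, 1 + ((dat φ).n + 6 * (d / 4) + d % 4)])
      (UPoly.mul (UPoly.const 4) hl).range (by fun_prop)
  · have h1 := hn' (f := fun x : N3 × ℕ => x.1) (by fun_prop)
    have h2 := hm (f := fun x : N3 × ℕ => x.1) (by fun_prop)
    exact NPC.Poly.map (l := fun φ : N3 => List.range (6 * (dat φ).m))
      (F := fun φ d => [1 + ((dat φ).n + d), 1 + nI (dat φ) + (dat φ).m + 2 * d,
        1 + nI (dat φ) + (dat φ).m + 2 * d + 1, 1 + pt (dat φ) d])
      (UPoly.mul (UPoly.const 6) hl).range (by fun_prop)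

theorem hardPr_ES : HardPr IsInst Realisable :=
  hardPr_NAE3.trans poly_red (fun _ hb => isInst_inst (good_dat hb)) fun _ hb => red_correct hb

end Pool.Agent.R544.ES
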